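import Pool.Agent.RTF.Stmts

/-!
# Squad RTF, module KEX: the division ring `K` exists
-/

set_option autoImplicit false
set_option linter.unusedVariables false
set_option linter.unusedSectionVars false

namespace Pool.Agent.RTF.H27

open Pool.Agent.Glue Pool.Agent.FB Pool.Agent.CD Pool.Agent.RTF
open scoped TensorProduct

noncomputable section

/-! ### Abstract Ore localisation inside a ring -/

section abs

variable {P : Type} [Ring P]

/-- A subring `R`, an ideal `J` of `R` and a subring `A` of `R` that satisfies the Ore condition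
modulo `J`. -/
structure Abs (R A : Subring P) (J : P → Prop) : Prop where
  le : ∀ a ∈ A, a ∈ R
  jz : J 0
  jadd : ∀ x y, J x → J y → J (x + y)
  jneg : ∀ x, J x → J (-x)
  mulL : ∀ r ∈ R, ∀ x, J x → J (r * x)
  mulR : ∀ r ∈ R, ∀ x, J x → J (x * r)
  one : ¬ J 1
  dom : ∀ a ∈ A, ∀ b ∈ A, ¬ J a → ¬ J b → ¬ J (a * b)
  ore : ∀ a ∈ A, ∀ b ∈ A, ¬ J a → ¬ J b → ∃ x ∈ A, ∃ y ∈ A, J (x * a - y * b) ∧ ¬ J (x * a)

variable {R A : Subring P} {J : P → Prop}

/-- The localisation. -/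
def Dl (R A : Subring P) (J : P → Prop) (p : P) : Prop :=
  p ∈ R ∧ ∃ a ∈ A, ∃ b ∈ A, ¬ J a ∧ J (a * p - b)

theorem dl_mem (H : Abs R A J) {a : P} (ha : a ∈ A) : Dl R A J a :=
  ⟨H.le a ha, 1, A.one_mem, a, ha, H.one, by rw [one_mul, sub_self]; exact H.jz⟩

theorem dl_neg (H : Abs R A J) {p : P} (hp : Dl R A J p) : Dl R A J (-p) := by
  obtain ⟨h1, a, ha, b, hb, h2, h3⟩ := hp
  refine ⟨R.neg_mem h1, a, ha, -b, A.neg_mem hb, h2, ?_⟩
  have h4 := H.jneg _ h3
  have e : -(a * p - b) = a * -p - -b := by rw [mul_neg]; abel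
  rwa [e] at h4

theorem dl_add (H : Abs R A J) {p q : P} (hp : Dl R A J p) (hq : Dl R A J q) :
    Dl R A J (p + q) := by
  obtain ⟨h1, a, ha, b, hb, h2, h3⟩ := hp
  obtain ⟨h1', a', ha', b', hb', h2', h3'⟩ := hq
  obtain ⟨x, hx, y, hy, h4, h5⟩ := H.ore a ha a' ha' h2 h2'
  refine ⟨R.add_mem h1 h1', x * a, A.mul_mem hx ha, x * b + y * b',
    A.add_mem (A.mul_mem hx hb) (A.mul_mem hy hb'), h5, ?_⟩
  have e1 := H.mulL x (H.le x hx) _ h3
  have e2 := H.mulL y (H.le y hy) _ h3'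
  have e3 := H.mulR q h1' _ h4
  have e4 := H.jadd _ _ (H.jadd _ _ e1 e2) e3
  have e : x * (a * p - b) + y * (a' * q - b') + (x * a - y * a') * q =
      x * a * (p + q) - (x * b + y * b') := by
    simp only [mul_sub, sub_mul, mul_add, mul_assoc]
    abel
  rwa [e] at e4

theorem dl_mul (H : Abs R A J) {p q : P} (hp : Dl R A J p) (hq : Dl R A J q) :
    Dl R A J (p * q) := by
  obtain ⟨h1, a, ha, b, hb, h2, h3⟩ := hp
  obtain ⟨h1', a', ha', b', hb', h2', h3'⟩ := hq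
  refine ⟨R.mul_mem h1 h1', ?_⟩
  by_cases hJ : J b
  · refine ⟨a, ha, 0, A.zero_mem, h2, ?_⟩
    have e1 := H.mulR q h1' _ (H.jadd _ _ h3 hJ)
    have e : (a * p - b + b) * q = a * (p * q) - 0 := by
      rw [sub_add_cancel, sub_zero, mul_assoc]
    rwa [e] at e1
  · obtain ⟨x, hx, y, hy, h4, h5⟩ := H.ore b hb a' ha' hJ h2'
    have h6 : ¬ J x := fun h => h5 (H.mulR b (H.le b hb) _ h)
    refine ⟨x * a, A.mul_mem hx ha, y * b', A.mul_mem hy hb', H.dom x hx a ha h6 h2, ?_⟩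
    have e1 := H.mulR q h1' _ (H.mulL x (H.le x hx) _ h3)
    have e2 := H.mulL y (H.le y hy) _ h3'
    have e3 := H.mulR q h1' _ h4
    have e4 := H.jadd _ _ (H.jadd _ _ e1 e2) e3
    have e : x * (a * p - b) * q + y * (a' * q - b') + (x * b - y * a') * q =
        x * a * (p * q) - y * b' := by
      simp only [mul_sub, sub_mul, mul_assoc]
      abel
    rwa [e] at e4

theorem dl_inv (H : Abs R A J) {p q : P} (hp : Dl R A J p) (hq : q ∈ R) (hpq : p * q = 1)
    (hn : ∀ a ∈ A, ¬ J a → ¬ J (a * p)) : Dl R A J q := by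
  obtain ⟨h1, a, ha, b, hb, h2, h3⟩ := hp
  refine ⟨hq, b, hb, a, ha, fun h => hn a ha h2 ?_, ?_⟩
  · have e := H.jadd _ _ h3 h
    rwa [sub_add_cancel] at e
  · have e1 := H.jneg _ (H.mulR q hq _ h3)
    have e : -((a * p - b) * q) = b * q - a := by
      rw [sub_mul, mul_assoc, hpq, mul_one]
      abel
    rwa [e] at e1

end abs

/-! ### Series -/

section ser

variable {G : Type} [Group G] {F : SF G} {B : Subgroup G}

open Classical in
theorem co_one (x : G) : F.co 1 x = if x = 1 then 1 else 0 := by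
  rw [← map_one F.sg]
  exact F.co_sg 1 x

theorem finOn_of_finite {u : F.U} (h : (Function.support (F.co u)).Finite) : FinOn F B u :=
  fun g => h.subset fun x hx => hx.1

theorem finOn_zero : FinOn F B 0 := by
  refine finOn_of_finite ?_
  rw [map_zero]
  simp

theorem finOn_one : FinOn F B 1 := by
  refine finOn_of_finite ((Set.finite_singleton 1).subset fun x hx => ?_)
  rw [Function.mem_support, co_one] at hx
  by_contra h
  exact hx (if_neg h)

theorem finOn_add {u v : F.U} (hu : FinOn F B u) (hv : FinOn F B v) : FinOn F B (u + v) := by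
  intro g
  refine ((hu g).union (hv g)).subset ?_
  rintro x ⟨h1, h2⟩
  by_cases h : F.co u x = 0
  · right
    refine ⟨fun h3 => h1 ?_, h2⟩
    rw [map_add, Pi.add_apply, h, h3, add_zero]
  · exact Or.inl ⟨h, h2⟩

theorem finOn_neg {u : F.U} (hu : FinOn F B u) : FinOn F B (-u) := by
  intro g
  refine (hu g).subset ?_
  rintro x ⟨h1, h2⟩
  refine ⟨fun h => h1 ?_, h2⟩
  rw [map_neg, Pi.neg_apply, h, neg_zero]

theorem cs_add {u v : F.U} (hu : FinOn F B u) (hv : FinOn F B v) (g : G) :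
    cs F B (u + v) g = cs F B u g + cs F B v g := by
  unfold cs
  rw [← finsum_mem_add_distrib']
  · simp only [map_add, Pi.add_apply]
  · exact (hu g).subset fun x hx => ⟨hx.2, hx.1⟩
  · exact (hv g).subset fun x hx => ⟨hx.2, hx.1⟩

theorem cs_neg {u : F.U} (g : G) : cs F B (-u) g = - cs F B u g := by
  unfold cs
  rw [finsum_mem_def, finsum_mem_def, ← finsum_neg_distrib]
  refine finsum_congr fun x => ?_
  by_cases h : x ∈ {x | g⁻¹ * x ∈ B}
  · rw [Set.indicator_of_mem h, Set.indicator_of_mem h, map_neg, Pi.neg_apply]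
  · rw [Set.indicator_of_notMem h, Set.indicator_of_notMem h, neg_zero]

theorem cz_zero : CZ F B 0 := by
  intro g
  unfold cs
  simp

theorem cz_one : ¬ CZ F B 1 := by
  intro h
  have h1 := h 1
  unfold cs at h1
  rw [finsum_mem_def, finsum_eq_single _ (1 : G)] at h1
  · rw [Set.indicator_of_mem, co_one, if_pos rfl] at h1
    · exact one_ne_zero h1
    · change (1 : G)⁻¹ * 1 ∈ B
      rw [inv_one, one_mul]
      exact B.one_mem
  · intro x hx
    rw [Set.indicator_apply_eq_zero]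
    intro _
    rw [co_one, if_neg hx]

end ser

/-! ### The group ring in both skew fields -/

section gp

variable {G : Type} [Group G] {F F' : SF G}

/-- The group ring inside the product. -/
def GP (F F' : SF G) : Subring (F.U × F'.U) :=
  Subring.closure (Set.range fun g => (F.sg g, F'.sg g))

theorem gp_sg (g : G) : (F.sg g, F'.sg g) ∈ GP F F' := Subring.subset_closure ⟨g, rfl⟩

theorem gp_co {a : F.U × F'.U} (ha : a ∈ GP F F') : F.co a.1 = F'.co a.2 := by
  unfold GP at ha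
  induction ha using Subring.closure_induction with
  | mem x hx =>
    obtain ⟨g, rfl⟩ := hx
    funext x
    rw [F.co_sg, F'.co_sg]
  | zero => rw [Prod.fst_zero, Prod.snd_zero, map_zero, map_zero]
  | one =>
    funext x
    rw [Prod.fst_one, Prod.snd_one, co_one, co_one]
  | add x y _ _ hx hy => rw [Prod.fst_add, Prod.snd_add, map_add, map_add, hx, hy]
  | neg x _ hx => rw [Prod.fst_neg, Prod.snd_neg, map_neg, map_neg, hx]
  | mul x y _ _ hx hy =>
    funext z
    rw [Prod.fst_mul, Prod.snd_mul, F.co_mul, F'.co_mul, hx, hy]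

theorem gp_fin {a : F.U × F'.U} (ha : a ∈ GP F F') : (Function.support (F.co a.1)).Finite := by
  unfold GP at ha
  induction ha using Subring.closure_induction with
  | mem x hx =>
    obtain ⟨g, rfl⟩ := hx
    refine (Set.finite_singleton g).subset fun x hx => ?_
    rw [Function.mem_support, F.co_sg] at hx
    by_contra h
    exact hx (if_neg h)
  | zero => rw [Prod.fst_zero, map_zero]; simp
  | one =>
    refine (Set.finite_singleton 1).subset fun x hx => ?_
    rw [Function.mem_support, Prod.fst_one, co_one] at hx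
    by_contra h
    exact hx (if_neg h)
  | add x y _ _ hx hy =>
    rw [Prod.fst_add, map_add]
    exact (hx.union hy).subset (Function.support_add _ _)
  | neg x _ hx =>
    rw [Prod.fst_neg, map_neg, Function.support_neg]
    exact hx
  | mul x y _ _ hx hy =>
    refine (hx.mul hy).subset fun z hz => ?_
    rw [Function.mem_support, Prod.fst_mul, F.co_mul] at hz
    obtain ⟨w, hw⟩ : ∃ w, F.co x.1 w * F.co y.1 (w⁻¹ * z) ≠ 0 := by
      by_contra h
      push Not at h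
      exact hz (finsum_eq_zero_of_forall_eq_zero h)
    exact ⟨w, fun h => hw (by rw [h, zero_mul]), w⁻¹ * z, fun h => hw (by rw [h, mul_zero]),
      mul_inv_cancel_left w z⟩

theorem gp_finOn {B : Subgroup G} {a : F.U × F'.U} (ha : a ∈ GP F F') :
    FinOn F B a.1 ∧ FinOn F' B a.2 := by
  refine ⟨finOn_of_finite (gp_fin ha), finOn_of_finite ?_⟩
  rw [← gp_co ha]
  exact gp_fin ha

theorem gp_cz {B : Subgroup G} {a : F.U × F'.U} (ha : a ∈ GP F F') :
    CZ F B a.1 ↔ CZ F' B a.2 := by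
  unfold CZ cs
  rw [gp_co ha]

theorem gp_fst {a : F.U × F'.U} (ha : a ∈ GP F F') : a.1 ∈ GR F := by
  unfold GP at ha
  induction ha using Subring.closure_induction with
  | mem x hx =>
    obtain ⟨g, rfl⟩ := hx
    exact Subring.subset_closure ⟨g, rfl⟩
  | zero => exact Subring.zero_mem _
  | one => exact Subring.one_mem _
  | add x y _ _ hx hy => exact Subring.add_mem _ hx hy
  | neg x _ hx => exact Subring.neg_mem _ hx
  | mul x y _ _ hx hy => exact Subring.mul_mem _ hx hy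

theorem gp_lift {a : F.U} (ha : a ∈ GR F) : ∃ b ∈ GP F F', b.1 = a := by
  unfold GR at ha
  induction ha using Subring.closure_induction with
  | mem x hx =>
    obtain ⟨g, rfl⟩ := hx
    exact ⟨_, gp_sg g, rfl⟩
  | zero => exact ⟨0, Subring.zero_mem _, rfl⟩
  | one => exact ⟨1, Subring.one_mem _, rfl⟩
  | add x y _ _ hx hy =>
    obtain ⟨b, hb, rfl⟩ := hx
    obtain ⟨c, hc, rfl⟩ := hy
    exact ⟨b + c, Subring.add_mem _ hb hc, rfl⟩
  | neg x _ hx =>
    obtain ⟨b, hb, rfl⟩ := hx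
    exact ⟨-b, Subring.neg_mem _ hb, rfl⟩
  | mul x y _ _ hx hy =>
    obtain ⟨b, hb, rfl⟩ := hx
    obtain ⟨c, hc, rfl⟩ := hy
    exact ⟨b * c, Subring.mul_mem _ hb hc, rfl⟩

end gp

/-! ### The localisation modulo `M i` -/

section loc

variable {G : Type} [Group G] (T : CF G) (F F' : SF G) (hF : F.o = T.ord) (hF' : F'.o = T.ord.rev)
  (hork : OrkStmt) (hcsi : CsiStmt) (hcsd : CsdStmt) (hmul : MulfStmt)

/-- The pairs of series that are finite on cosets. -/
def RR (hF : F.o = T.ord) (hF' : F'.o = T.ord.rev) (hmul : MulfStmt) (i : ℕ) :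
    Subring (F.U × F'.U) where
  carrier := {p | FinOn F (T.M i) p.1 ∧ FinOn F' (T.M i) p.2}
  zero_mem' := ⟨finOn_zero, finOn_zero⟩
  one_mem' := ⟨finOn_one, finOn_one⟩
  add_mem' := fun h h' => ⟨finOn_add h.1 h'.1, finOn_add h.2 h'.2⟩
  neg_mem' := fun h => ⟨finOn_neg h.1, finOn_neg h.2⟩
  mul_mem' := fun h h' => ⟨hmul G F (T.M i) (T.normal i) (by rw [hF]; exact T.conv i) _ _ h.1 h'.1,
    hmul G F' (T.M i) (T.normal i) (by rw [hF']; exact T.conv_rev i) _ _ h.2 h'.2⟩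

theorem mem_RR {i : ℕ} {p : F.U × F'.U} : p ∈ RR T F F' hF hF' hmul i ↔
    FinOn F (T.M i) p.1 ∧ FinOn F' (T.M i) p.2 := Iff.rfl

/-- The pairs of series with vanishing coset sums. -/
def JJ (i : ℕ) (p : F.U × F'.U) : Prop :=
  (FinOn F (T.M i) p.1 ∧ FinOn F' (T.M i) p.2) ∧ CZ F (T.M i) p.1 ∧ CZ F' (T.M i) p.2

variable {F F'}

theorem gp_jj {i : ℕ} {a : F.U × F'.U} (ha : a ∈ GP F F') :
    JJ T F F' i a ↔ CZ F (T.M i) a.1 :=
  ⟨fun h => h.2.1, fun h => ⟨gp_finOn ha, h, (gp_cz ha).1 h⟩⟩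

include hork hcsi hcsd in
theorem abs_loc (i : ℕ) : Abs (RR T F F' hF hF' hmul i) (GP F F') (JJ T F F' i) where
  le a ha := gp_finOn ha
  jz := ⟨⟨finOn_zero, finOn_zero⟩, cz_zero, cz_zero⟩
  jadd x y hx hy := by
    refine ⟨⟨finOn_add hx.1.1 hy.1.1, finOn_add hx.1.2 hy.1.2⟩, fun g => ?_, fun g => ?_⟩
    · rw [Prod.fst_add, cs_add hx.1.1 hy.1.1, hx.2.1 g, hy.2.1 g, add_zero]
    · rw [Prod.snd_add, cs_add hx.1.2 hy.1.2, hx.2.2 g, hy.2.2 g, add_zero]
  jneg x hx := by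
    refine ⟨⟨finOn_neg hx.1.1, finOn_neg hx.1.2⟩, fun g => ?_, fun g => ?_⟩
    · rw [Prod.fst_neg, cs_neg, hx.2.1 g, neg_zero]
    · rw [Prod.snd_neg, cs_neg, hx.2.2 g, neg_zero]
  mulL r hr x hx := by
    refine ⟨(RR T F F' hF hF' hmul i).mul_mem hr hx.1, ?_, ?_⟩
    · exact hcsi G F (T.M i) (T.normal i) (by rw [hF]; exact T.conv i) _ _ hr.1 hx.1.1
        (Or.inr hx.2.1)
    · exact hcsi G F' (T.M i) (T.normal i) (by rw [hF']; exact T.conv_rev i) _ _ hr.2 hx.1.2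
        (Or.inr hx.2.2)
  mulR r hr x hx := by
    refine ⟨(RR T F F' hF hF' hmul i).mul_mem hx.1 hr, ?_, ?_⟩
    · exact hcsi G F (T.M i) (T.normal i) (by rw [hF]; exact T.conv i) _ _ hx.1.1 hr.1
        (Or.inl hx.2.1)
    · exact hcsi G F' (T.M i) (T.normal i) (by rw [hF']; exact T.conv_rev i) _ _ hx.1.2 hr.2
        (Or.inl hx.2.2)
  one h := cz_one h.2.1
  dom a ha b hb h h' := by
    rw [gp_jj T ha] at h
    rw [gp_jj T hb] at h'
    rw [gp_jj T (Subring.mul_mem _ ha hb)]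
    exact hcsd G F (T.M i) (T.normal i) (by rw [hF]; exact T.conv i) _ _ (gp_finOn ha).1
      (gp_finOn hb).1 h h'
  ore a ha b hb h h' := by
    rw [gp_jj T ha] at h
    rw [gp_jj T hb] at h'
    obtain ⟨x, hx, y, hy, h1, h2⟩ := hork G T F (Or.inl hF) i a.1 (gp_fst ha) b.1 (gp_fst hb) h h'
    obtain ⟨x', hx', rfl⟩ := gp_lift (F' := F') hx
    obtain ⟨y', hy', rfl⟩ := gp_lift (F' := F') hy
    refine ⟨x', hx', y', hy', ?_, ?_⟩
    · rw [gp_jj T (Subring.sub_mem _ (Subring.mul_mem _ hx' ha) (Subring.mul_mem _ hy' hb))]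
      exact h1
    · rw [gp_jj T (Subring.mul_mem _ hx' ha)]
      exact h2

/-- The pairs that belong to the localisation for all large `i`. -/
def DD (hF : F.o = T.ord) (hF' : F'.o = T.ord.rev) (hmul : MulfStmt) (p : F.U × F'.U) : Prop :=
  ∃ j, ∀ i, j ≤ i → Dl (RR T F F' hF hF' hmul i) (GP F F') (JJ T F F' i) p

include hork hcsi hcsd in
theorem dd_gp {a : F.U × F'.U} (ha : a ∈ GP F F') : DD T hF hF' hmul a :=
  ⟨0, fun i _ => dl_mem (abs_loc T hF hF' hork hcsi hcsd hmul i) ha⟩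

include hork hcsi hcsd in
theorem dd_neg {p : F.U × F'.U} (hp : DD T hF hF' hmul p) : DD T hF hF' hmul (-p) := by
  obtain ⟨j, hj⟩ := hp
  exact ⟨j, fun i hi => dl_neg (abs_loc T hF hF' hork hcsi hcsd hmul i) (hj i hi)⟩

include hork hcsi hcsd in
theorem dd_add {p q : F.U × F'.U} (hp : DD T hF hF' hmul p) (hq : DD T hF hF' hmul q) :
    DD T hF hF' hmul (p + q) := by
  obtain ⟨j, hj⟩ := hp
  obtain ⟨j', hj'⟩ := hq
  exact ⟨max j j', fun i hi => dl_add (abs_loc T hF hF' hork hcsi hcsd hmul i)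
    (hj i (le_trans (le_max_left _ _) hi)) (hj' i (le_trans (le_max_right _ _) hi))⟩

include hork hcsi hcsd in
theorem dd_mul {p q : F.U × F'.U} (hp : DD T hF hF' hmul p) (hq : DD T hF hF' hmul q) :
    DD T hF hF' hmul (p * q) := by
  obtain ⟨j, hj⟩ := hp
  obtain ⟨j', hj'⟩ := hq
  exact ⟨max j j', fun i hi => dl_mul (abs_loc T hF hF' hork hcsi hcsd hmul i)
    (hj i (le_trans (le_max_left _ _) hi)) (hj' i (le_trans (le_max_right _ _) hi))⟩

variable (hcsn : CsnStmt) (hinv : InvfStmt)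

include hcsn in
theorem dd_fst {p : F.U × F'.U} (hp : DD T hF hF' hmul p) (h : p.1 ≠ 0) :
    ∃ j, ∀ i, j ≤ i → ¬ CZ F (T.M i) p.1 := by
  obtain ⟨j, hj⟩ := hp
  obtain ⟨j', -, h2⟩ := hcsn G T F (Or.inl hF) j p.1 (hj j le_rfl).1.1 h
  exact ⟨j', h2⟩

include hcsn in
theorem dd_snd {p : F.U × F'.U} (hp : DD T hF hF' hmul p) (h : p.2 ≠ 0) :
    ∃ j, ∀ i, j ≤ i → ¬ CZ F' (T.M i) p.2 := by
  obtain ⟨j, hj⟩ := hp
  obtain ⟨j', -, h2⟩ := hcsn G T F' (Or.inr hF') j p.2 (hj j le_rfl).1.2 h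
  exact ⟨j', h2⟩

theorem cz_sub {F : SF G} {B : Subgroup G} {u v : F.U} (hu : FinOn F B u) (hv : FinOn F B v)
    (h : CZ F B (u - v)) (h' : CZ F B v) : CZ F B u := by
  intro g
  have h1 := h g
  rw [sub_eq_add_neg, cs_add hu (finOn_neg hv), cs_neg, h' g, neg_zero, add_zero] at h1
  exact h1

include hcsd hcsn hcsi in
/-- A pair of the localisation is zero if one entry is zero. -/
theorem dd_zero {p : F.U × F'.U} (hp : DD T hF hF' hmul p) : p.1 = 0 ↔ p.2 = 0 := by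
  constructor
  · intro h
    by_contra h2
    obtain ⟨j', hj'⟩ := dd_snd T hF hF' hmul hcsn hp h2
    obtain ⟨j, hj⟩ := hp
    obtain ⟨h3, a, ha, b, hb, h4, h5⟩ := hj (max j j') (le_max_left _ _)
    have h6 := hj' (max j j') (le_max_right _ _)
    rw [gp_jj T ha, gp_cz ha] at h4
    have h7 : CZ F (T.M (max j j')) b.1 := by
      intro g
      have h8 := h5.2.1 g
      rw [Prod.fst_sub, Prod.fst_mul, h, mul_zero, zero_sub, cs_neg, neg_eq_zero] at h8
      exact h8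
    rw [gp_cz hb] at h7
    have hmm := (RR T F F' hF hF' hmul (max j j')).mul_mem (gp_finOn ha) h3
    exact hcsd G F' _ (T.normal _) (by rw [hF']; exact T.conv_rev _) _ _ (gp_finOn ha).2 h3.2
      h4 h6 (cz_sub hmm.2 (gp_finOn hb).2 h5.2.2 h7)
  · intro h
    by_contra h2
    obtain ⟨j', hj'⟩ := dd_fst T hF hF' hmul hcsn hp h2
    obtain ⟨j, hj⟩ := hp
    obtain ⟨h3, a, ha, b, hb, h4, h5⟩ := hj (max j j') (le_max_left _ _)
    have h6 := hj' (max j j') (le_max_right _ _)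
    rw [gp_jj T ha] at h4
    have h7 : CZ F' (T.M (max j j')) b.2 := by
      intro g
      have h8 := h5.2.2 g
      rw [Prod.snd_sub, Prod.snd_mul, h, mul_zero, zero_sub, cs_neg, neg_eq_zero] at h8
      exact h8
    rw [← gp_cz hb] at h7
    have hmm := (RR T F F' hF hF' hmul (max j j')).mul_mem (gp_finOn ha) h3
    exact hcsd G F _ (T.normal _) (by rw [hF]; exact T.conv _) _ _ (gp_finOn ha).1 h3.1
      h4 h6 (cz_sub hmm.1 (gp_finOn hb).1 h5.2.1 h7)

include hork hcsi hcsd hcsn hinv in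
theorem dd_inv {p : F.U × F'.U} (hp : DD T hF hF' hmul p) :
    DD T hF hF' hmul (p.1⁻¹, p.2⁻¹) := by
  by_cases h0 : p.1 = 0
  · have h1 := (dd_zero T hF hF' hcsi hcsd hmul hcsn hp).1 h0
    rw [h0, h1, inv_zero, inv_zero]
    exact dd_gp T hF hF' hork hcsi hcsd hmul (Subring.zero_mem _)
  · have h1 : p.2 ≠ 0 := fun h => h0 ((dd_zero T hF hF' hcsi hcsd hmul hcsn hp).2 h)
    obtain ⟨j1, hj1⟩ := dd_fst T hF hF' hmul hcsn hp h0
    obtain ⟨j, hj⟩ := hp
    obtain ⟨j2, -, hj2⟩ := hinv G T F (Or.inl hF) j p.1 (hj j le_rfl).1.1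
    obtain ⟨j3, -, hj3⟩ := hinv G T F' (Or.inr hF') j p.2 (hj j le_rfl).1.2
    refine ⟨max (max j j1) (max j2 j3), fun i hi => ?_⟩
    have a1 : j ≤ i := by omega
    have a2 : j1 ≤ i := by omega
    have a3 : j2 ≤ i := by omega
    have a4 : j3 ≤ i := by omega
    refine dl_inv (abs_loc T hF hF' hork hcsi hcsd hmul i) (hj i a1) ⟨hj2 i a3, hj3 i a4⟩ ?_ ?_
    · exact Prod.ext (mul_inv_cancel₀ h0) (mul_inv_cancel₀ h1)
    · intro a ha h2 h3
      rw [gp_jj T ha] at h2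
      exact hcsd G F _ (T.normal _) (by rw [hF]; exact T.conv _) _ _ (gp_finOn ha).1
        (hj i a1).1.1 h2 (hj1 i a2) h3.2.1

/-- The first entries form a division subring. -/
def EE (hF : F.o = T.ord) (hF' : F'.o = T.ord.rev) (hork : OrkStmt) (hcsi : CsiStmt)
    (hcsd : CsdStmt) (hmul : MulfStmt) (hcsn : CsnStmt) (hinv : InvfStmt) : Subfield F.U where
  carrier := {x | ∃ w : F'.U, DD T hF hF' hmul (x, w)}
  zero_mem' := ⟨0, dd_gp T hF hF' hork hcsi hcsd hmul (Subring.zero_mem _)⟩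
  one_mem' := ⟨1, dd_gp T hF hF' hork hcsi hcsd hmul (Subring.one_mem _)⟩
  add_mem' := fun ⟨w, h⟩ ⟨w', h'⟩ => ⟨w + w', dd_add T hF hF' hork hcsi hcsd hmul h h'⟩
  neg_mem' := fun ⟨w, h⟩ => ⟨-w, dd_neg T hF hF' hork hcsi hcsd hmul h⟩
  mul_mem' := fun ⟨w, h⟩ ⟨w', h'⟩ => ⟨w * w', dd_mul T hF hF' hork hcsi hcsd hmul h h'⟩
  inv_mem' := fun x ⟨w, h⟩ => ⟨w⁻¹, dd_inv T hF hF' hork hcsi hcsd hmul hcsn hinv h⟩

include hork hcsi hcsd hcsn in
theorem dd_unique {x : F.U} {w w' : F'.U} (h : DD T hF hF' hmul (x, w))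
    (h' : DD T hF hF' hmul (x, w')) : w = w' := by
  have h1 := dd_add T hF hF' hork hcsi hcsd hmul h (dd_neg T hF hF' hork hcsi hcsd hmul h')
  have h2 := (dd_zero T hF hF' hcsi hcsd hmul hcsn h1).1 (by
    change x + -x = 0
    exact add_neg_cancel x)
  exact add_neg_eq_zero.1 h2

end loc

theorem kex (h1 : SerStmt) (h2 : StarStmt) (hork : OrkStmt) (hcsi : CsiStmt) (hcsd : CsdStmt)
    (hcsn : CsnStmt) (hinv : InvfStmt) (hmul : MulfStmt) : KexStmt := by
  intro G _ T F hF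
  obtain ⟨F', hF'⟩ := h1 G T.ord.rev
  obtain ⟨e, he1, he2, he3⟩ := h2 G F F' (by rw [hF', hF])
  -- e on the group elements
  have hone : e 1 = 1 := by
    have h3 := he3 1 1
    rw [mul_one] at h3
    have h4 : e 1 ≠ 0 := fun h => one_ne_zero (e.injective (h.trans (map_zero e).symm))
    exact (mul_eq_left₀ h4).1 h3.symm
  have hesg : ∀ g, e (F.sg g) = F'.sg g⁻¹ := by
    intro g
    have h3 := he1 g 1
    rw [hone] at h3
    change e (F.sg g * 1) = 1 * F'.sg g⁻¹ at h3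
    rwa [mul_one, one_mul] at h3
  let K0 : Subfield F.U := Subfield.closure (Set.range F.sg)
  have hKE : K0 ≤ EE T hF hF' hork hcsi hcsd hmul hcsn hinv := by
    rw [Subfield.closure_le]
    rintro _ ⟨g, rfl⟩
    exact ⟨F'.sg g, dd_gp T hF hF' hork hcsi hcsd hmul (gp_sg g)⟩
  have hex : ∀ x : K0, ∃ w : F'.U, DD T hF hF' hmul ((x : F.U), w) := fun x => hKE x.2
  choose φ hφ using hex
  have hφu : ∀ (x : K0) (w : F'.U), DD T hF hF' hmul ((x : F.U), w) → φ x = w := fun x w h =>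
    dd_unique T hF hF' hork hcsi hcsd hmul hcsn (hφ x) h
  have hφadd : ∀ x y, φ (x + y) = φ x + φ y := fun x y =>
    hφu _ _ (dd_add T hF hF' hork hcsi hcsd hmul (hφ x) (hφ y))
  have hφmul : ∀ x y, φ (x * y) = φ x * φ y := fun x y =>
    hφu _ _ (dd_mul T hF hF' hork hcsi hcsd hmul (hφ x) (hφ y))
  have hφsg : ∀ (g : G) (h : F.sg g ∈ K0), φ ⟨F.sg g, h⟩ = F'.sg g := fun g h =>
    hφu _ _ (dd_gp T hF hF' hork hcsi hcsd hmul (gp_sg g))
  -- the anti-homomorphism
  let t : K0 → F.U := fun x => e.symm (φ x)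
  have htadd : ∀ x y, t (x + y) = t x + t y := fun x y => by
    change e.symm (φ (x + y)) = _
    rw [hφadd, map_add]
  have htmul : ∀ x y, t (x * y) = t y * t x := fun x y => by
    apply e.injective
    rw [he3]
    change e (e.symm (φ (x * y))) = e (e.symm (φ x)) * e (e.symm (φ y))
    rw [e.apply_symm_apply, e.apply_symm_apply, e.apply_symm_apply, hφmul]
  have htsg : ∀ (g : G) (h : F.sg g ∈ K0), t ⟨F.sg g, h⟩ = F.sg g⁻¹ := fun g h => by
    apply e.injective
    rw [hesg, inv_inv]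
    change e (e.symm (φ _)) = _
    rw [e.apply_symm_apply, hφsg]
  have ht0 : t 0 = 0 := by
    have h3 := htadd 0 0
    rw [add_zero] at h3
    exact left_eq_add.1 h3
  have ht1 : t 1 = 1 := by
    have h3 : (1 : K0) = ⟨F.sg 1, by rw [map_one]; exact K0.one_mem⟩ := Subtype.ext (map_one F.sg).symm
    rw [h3, htsg, inv_one, map_one]
  have htneg : ∀ x, t (-x) = - t x := fun x => by
    have h3 := htadd x (-x)
    rw [add_neg_cancel, ht0] at h3
    exact (neg_eq_of_add_eq_zero_right h3.symm).symm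
  have htinv : ∀ x, t x⁻¹ = (t x)⁻¹ := fun x => by
    by_cases hx : x = 0
    · rw [hx, inv_zero, ht0, inv_zero]
    · have h3 := htmul x x⁻¹
      rw [mul_inv_cancel₀ hx, ht1] at h3
      exact eq_inv_of_mul_eq_one_left h3.symm
  have htmem : ∀ x : K0, t x ∈ K0 := by
    rintro ⟨x, hx⟩
    induction hx using Subfield.closure_induction with
    | mem x hx =>
      obtain ⟨g, rfl⟩ := hx
      rw [htsg]
      exact Subfield.subset_closure ⟨g⁻¹, rfl⟩
    | one =>
      have h5 : t ⟨1, one_mem _⟩ = 1 := ht1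
      rw [h5]
      exact K0.one_mem
    | add x y hx hy h3 h4 =>
      have h5 : t ⟨x + y, add_mem hx hy⟩ = t ⟨x, hx⟩ + t ⟨y, hy⟩ := htadd ⟨x, hx⟩ ⟨y, hy⟩
      rw [h5]
      exact K0.add_mem h3 h4
    | neg x hx h3 =>
      have h5 : t ⟨-x, neg_mem hx⟩ = - t ⟨x, hx⟩ := htneg ⟨x, hx⟩
      rw [h5]
      exact K0.neg_mem h3
    | inv x hx h3 =>
      have h5 : t ⟨x⁻¹, inv_mem hx⟩ = (t ⟨x, hx⟩)⁻¹ := htinv ⟨x, hx⟩
      rw [h5]
      exact K0.inv_mem h3
    | mul x y hx hy h3 h4 =>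
      have h5 : t ⟨x * y, mul_mem hx hy⟩ = t ⟨y, hy⟩ * t ⟨x, hx⟩ := htmul ⟨x, hx⟩ ⟨y, hy⟩
      rw [h5]
      exact K0.mul_mem h4 h3
  let st : K0 → K0 := fun x => ⟨t x, htmem x⟩
  have sadd : ∀ x y, st (x + y) = st x + st y := fun x y => Subtype.ext (htadd x y)
  have smul : ∀ x y, st (x * y) = st y * st x := fun x y => Subtype.ext (htmul x y)
  have sneg : ∀ x, st (-x) = - st x := fun x => Subtype.ext (htneg x)
  have sinv : ∀ x, st x⁻¹ = (st x)⁻¹ := fun x => Subtype.ext (htinv x)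
  have s1 : st 1 = 1 := Subtype.ext ht1
  have hsg : ∀ g, F.sg g ∈ K0 := fun g => Subfield.subset_closure ⟨g, rfl⟩
  have ssg : ∀ g, st ⟨F.sg g, hsg g⟩ = ⟨F.sg g⁻¹, hsg _⟩ := fun g => Subtype.ext (htsg g _)
  have sst : ∀ x, st (st x) = x := by
    rintro ⟨x, hx⟩
    induction hx using Subfield.closure_induction with
    | mem x hx =>
      obtain ⟨g, rfl⟩ := hx
      have h3 : st ⟨F.sg g, Subfield.subset_closure ⟨g, rfl⟩⟩ = ⟨F.sg g⁻¹, hsg _⟩ := ssg g
      rw [h3, ssg]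
      exact Subtype.ext (by rw [inv_inv])
    | one =>
      have h3 : (⟨1, one_mem _⟩ : K0) = 1 := rfl
      rw [h3, s1, s1]
    | add x y hx hy h3 h4 =>
      have h5 : (⟨x + y, add_mem hx hy⟩ : K0) = ⟨x, hx⟩ + ⟨y, hy⟩ := rfl
      rw [h5, sadd, sadd, h3, h4]
    | neg x hx h3 =>
      have h5 : (⟨-x, neg_mem hx⟩ : K0) = -⟨x, hx⟩ := rfl
      rw [h5, sneg, sneg, h3]
    | inv x hx h3 =>
      have h5 : (⟨x⁻¹, inv_mem hx⟩ : K0) = (⟨x, hx⟩ : K0)⁻¹ := rfl
      rw [h5, sinv, sinv, h3]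
    | mul x y hx hy h3 h4 =>
      have h5 : (⟨x * y, mul_mem hx hy⟩ : K0) = ⟨x, hx⟩ * ⟨y, hy⟩ := rfl
      rw [h5, smul, smul, h3, h4]
  let s0 : G →* K0 :=
    { toFun := fun g => ⟨F.sg g, hsg g⟩
      map_one' := Subtype.ext (map_one F.sg)
      map_mul' := fun a b => Subtype.ext (map_mul F.sg a b) }
  have hgen : Subfield.closure (Set.range s0) = ⊤ := by
    rw [eq_top_iff]
    rintro ⟨x, hx⟩ -
    induction hx using Subfield.closure_induction with
    | mem x hx =>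
      obtain ⟨g, rfl⟩ := hx
      exact Subfield.subset_closure ⟨g, rfl⟩
    | one => exact one_mem _
    | add x y hx hy h3 h4 => exact add_mem h3 h4
    | neg x hx h3 => exact neg_mem h3
    | inv x hx h3 => exact inv_mem h3
    | mul x y hx hy h3 h4 => exact mul_mem h3 h4
  exact ⟨{
    K := K0
    fld := inferInstance
    chr := (RingHom.charP_iff K0.subtype Subtype.val_injective 2).2 inferInstance
    s := s0
    st := AddMonoidHom.mk' st sadd
    st_mul := smul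
    st_st := sst
    st_s := ssg
    gen := hgen
    p := K0.subtype
    ps := fun g => rfl }⟩

end

end Pool.Agent.RTF.H27
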